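import Pool.Agent.helper37.NA.Spec

/-!
# MP_baa4d7_al, theorem NA, row NEC: uniqueness of `E` in a `p`-group
-/

set_option autoImplicit false

namespace Pool.Agent.NAB

open Pool.Agent.helper58.DC Pool.Agent.DI Pool.Agent.GR Pool.Agent.OB Pool.Agent.DR Pool.Agent.FI Pool.Agent.FI3 Pool.Agent.FI4 Pool.Agent.FI4I Pool.Agent.LE Pool.Agent.L5

theorem NEC_pow (p e m : ℕ) (hp : p.Prime) (hme : m < e) (G : Type) [Group G] [Finite G] (D : Subgroup G)
    (hD : IsPGroup p D) (hc : Nat.card D ≤ p ^ (e + m)) (z : G) (hz : z ∈ D) (hzc : ∀ d ∈ D, z * d = d * z)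
    (ho : orderOf z = p ^ e) (w : G) (hw : w ∈ D) : w ^ p ^ (e - 1) ∈ Subgroup.zpowers z := by
  have hle : Subgroup.zpowers z ≤ D := Subgroup.zpowers_le.2 hz
  have hn : ((Subgroup.zpowers z).subgroupOf D).Normal := by
    constructor
    rintro ⟨x, hx⟩ hxz ⟨d, hd⟩
    rw [Subgroup.mem_subgroupOf] at hxz ⊢
    obtain ⟨k, hk⟩ := Subgroup.mem_zpowers_iff.1 hxz
    have h1 : Commute z d := hzc d hd
    have h2 : d * x * d⁻¹ = x := by
      have h3 : x = z ^ k := hk.symm
      rw [h3, ← (h1.zpow_left k).eq]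
      group
    show d * x * d⁻¹ ∈ Subgroup.zpowers z
    rw [h2]
    exact hxz
  have h1 := Subgroup.pow_index_mem ((Subgroup.zpowers z).subgroupOf D) ⟨w, hw⟩
  rw [Subgroup.mem_subgroupOf] at h1
  have h2 : w ^ ((Subgroup.zpowers z).subgroupOf D).index ∈ Subgroup.zpowers z := h1
  have hpf : Fact p.Prime := ⟨hp⟩
  obtain ⟨n, hn'⟩ := IsPGroup.iff_card.1 hD
  have h3 := Subgroup.card_mul_index ((Subgroup.zpowers z).subgroupOf D)
  have h4 : Nat.card ((Subgroup.zpowers z).subgroupOf D) = p ^ e := by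
    rw [Nat.card_congr (Subgroup.subgroupOfEquivOfLe hle).toEquiv, Nat.card_zpowers, ho]
  rw [h4, hn'] at h3
  have hnle : n ≤ e + m := by
    rw [hn'] at hc
    exact (Nat.pow_le_pow_iff_right hp.one_lt).1 hc
  have hen : e ≤ n := by
    have : p ^ e ∣ p ^ n := Dvd.intro _ h3
    exact (Nat.pow_dvd_pow_iff_le_right hp.one_lt).1 this
  have h5 : ((Subgroup.zpowers z).subgroupOf D).index = p ^ (n - e) := by
    have h6 : p ^ e * p ^ (n - e) = p ^ n := by
      rw [← pow_add]
      congr 1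
      omega
    exact Nat.eq_of_mul_eq_mul_left (pow_pos hp.pos e) (h3.trans h6.symm)
  rw [h5] at h2
  have h7 : w ^ p ^ (e - 1) = (w ^ p ^ (n - e)) ^ p ^ (e - 1 - (n - e)) := by
    rw [← pow_mul, ← pow_add]
    congr 2
    omega
  rw [h7]
  exact Subgroup.pow_mem _ h2 _

theorem NEC (hNEG : NEG_stmt) : NEC_stmt := by
  intro p e m hp hme G _ _ D hD hc z hz hzc ho
  have he : 1 ≤ e := by omega
  have hz' := hNEG p e hp G z
  have key : ∀ w ∈ D, orderOf w = p ^ e → Eg p e w = Eg p e z := by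
    intro w hw how
    have h1 := NEC_pow p e m hp hme G D hD hc z hz hzc ho w hw
    have hw' := hNEG p e hp G w
    have o1 : orderOf (w ^ p ^ (e - 1)) = p := (hw'.2.2.2.2.2.1.2 he how).2
    have o2 : orderOf (z ^ p ^ (e - 1)) = p := (hz'.2.2.2.2.2.1.2 he ho).2
    rw [← mem_powers_iff_mem_zpowers] at h1
    obtain ⟨a, ha⟩ := h1
    have ha' : z ^ a = w ^ p ^ (e - 1) := ha
    have h2 : z ^ (a * p) = 1 := by
      rw [pow_mul, ha']
      have := pow_orderOf_eq_one (w ^ p ^ (e - 1))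
      rwa [o1] at this
    have h3 : p ^ e ∣ a * p := by
      rw [← ho]
      exact orderOf_dvd_of_pow_eq_one h2
    have h4 : p ^ (e - 1) ∣ a := by
      have h5 : p ^ e = p ^ (e - 1) * p := by
        rw [← pow_succ]
        congr 1
        omega
      rw [h5] at h3
      exact Nat.dvd_of_mul_dvd_mul_right hp.pos h3
    obtain ⟨b, rfl⟩ := h4
    have hle : Eg p e w ≤ Eg p e z := by
      unfold Eg
      rw [Subgroup.zpowers_le, ← ha', pow_mul]
      exact Subgroup.pow_mem _ (Subgroup.mem_zpowers _) _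
    refine Subgroup.eq_of_le_of_card_ge hle ?_
    unfold Eg
    rw [Nat.card_zpowers, Nat.card_zpowers, o1, o2]
  refine ⟨key, ?_, hz'.2.1 D hz, ?_⟩
  · intro n hn
    have h1 : n * z * n⁻¹ ∈ D := (Subgroup.mem_normalizer_iff.1 hn z).1 hz
    have h2 : orderOf (n * z * n⁻¹) = p ^ e := by
      rw [← ho]
      exact orderOf_injective (MulAut.conj n).toMonoidHom (MulAut.conj n).injective z
    have h3 := key _ h1 h2
    rw [hz'.1 n] at h3
    rw [Subgroup.mem_normalizer_iff]
    intro x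
    constructor
    · intro hx
      have h4 : n * x * n⁻¹ ∈ cjS n (Eg p e z) := by
        rw [mem_cjS]
        have h5 : n⁻¹ * (n * x * n⁻¹) * n = x := by group
        rw [h5]
        exact hx
      rw [h3] at h4
      exact h4
    · intro hx
      have h4 : n * x * n⁻¹ ∈ cjS n (Eg p e z) := by
        rw [h3]
        exact hx
      rw [mem_cjS] at h4
      have h5 : n⁻¹ * (n * x * n⁻¹) * n = x := by group
      rw [h5] at h4
      exact h4
  · intro c hc
    refine hz'.2.2.2.2.1.2 (hz'.2.2.2.2.1.1 ?_)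
    rw [Subgroup.mem_centralizer_iff]
    rintro x hx
    rw [Set.mem_singleton_iff.1 hx]
    exact (Subgroup.mem_centralizer_iff.1 hc) z hz

end Pool.Agent.NAB
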