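import Pool.Agent.helper97.NA.SpecE

/-!
# MP_baa4d7_al, theorem NA, block E, row XDV: divisibility of the chain sum with an automorphism
-/

set_option autoImplicit false

namespace Pool.Agent.NAB

open Pool.Agent.helper58.DC Pool.Agent.DI Pool.Agent.GR Pool.Agent.OB Pool.Agent.DR Pool.Agent.FI Pool.Agent.FI3 Pool.Agent.FI4 Pool.Agent.FI4I Pool.Agent.FI4E Pool.Agent.LE Pool.Agent.L5

/-- the centre of a nontrivial normal `p`-subgroup -/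
theorem XDV_center {G : Type} [Group G] [Finite G] (p : ℕ) [Fact p.Prime] (R : Subgroup G)
    (hp : IsPGroup p R) (hn : R.Normal) (h1 : R ≠ ⊥) :
    (R ⊓ cz R).Normal ∧ R ⊓ cz R ≠ ⊥ ∧ IsPGroup p (R ⊓ cz R : Subgroup G) ∧ ∀ a ∈ R ⊓ cz R, ∀ b ∈ R ⊓ cz R, a * b = b * a := by
  have hnt : Nontrivial R := (Subgroup.nontrivial_iff_ne_bot R).2 h1
  have hc : Nontrivial (Subgroup.center R) := hp.center_nontrivial
  refine ⟨?_, ?_, ?_, ?_⟩
  · constructor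
    intro r hr g
    refine Subgroup.mem_inf.2 ⟨hn.conj_mem r hr.1 g, ?_⟩
    rw [Subgroup.mem_centralizer_iff]
    intro h hh
    have h2 : g⁻¹ * h * g ∈ R := by
      have := hn.conj_mem h hh g⁻¹
      rwa [inv_inv] at this
    have h3 := Subgroup.mem_centralizer_iff.1 hr.2 _ h2
    calc h * (g * r * g⁻¹) = g * ((g⁻¹ * h * g) * r) * g⁻¹ := by group
      _ = g * (r * (g⁻¹ * h * g)) * g⁻¹ := by rw [h3]
      _ = g * r * g⁻¹ * h := by group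
  · obtain ⟨c, hc1⟩ := exists_ne (1 : Subgroup.center R)
    intro hbot
    have h2 : ((c : R) : G) ∈ R ⊓ cz R := by
      refine Subgroup.mem_inf.2 ⟨(c : R).2, ?_⟩
      rw [Subgroup.mem_centralizer_iff]
      intro h hh
      have h3 := Subgroup.mem_center_iff.1 c.2 ⟨h, hh⟩
      exact congrArg Subtype.val h3
    rw [hbot, Subgroup.mem_bot] at h2
    exact hc1 (Subtype.ext (Subtype.ext h2))
  · exact hp.to_le inf_le_left
  · intro a ha b hb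
    exact (Subgroup.mem_centralizer_iff.1 hb.2 a ha.1)

/-- The induction step, for an arbitrary quotient map. -/
theorem XDV_gen (hXOQ : XOQ_stmt) (hXUN : XUN_stmt) (hNQK : NQK_stmt) (hNKC : NKC_stmt) (hKBL : KBL_stmt)
    (hKG1 : KG1_stmt) (hEQA : EQA_stmt) (hEJ5 : EJ5_stmt) (hIM : IM_stmt) (p e m : ℕ)
    (M : Ideal (integralClosure ℤ ℂ)) (hM : Setup p M) (he : m < e) (c v : ℕ)
    (G Gb : Type) [Group G] [Finite G] [Group Gb] [Finite Gb] (χ : G → ℂ) (hχ : χ ∈ Irr G)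
    (z x : G) (hU : Ucl p e m M (⊤ : Subgroup G) χ z x)
    (R : Subgroup G) (hR : IsOp p ⊤ R) (hz : z ^ p ^ (e - 1) ∉ R) (R₁ : Subgroup G) (hR₁ : R₁ ≤ R)
    (π : G →* Gb) (hQ : Qn p R₁ π) (α : MulAut G) (hα : am α R₁ = R₁) (hp : ¬ p ∣ orderOf α)
    (hJ : ¬ p ^ (v + 1) ∣ Pool.Agent.MAPW.J2 (orderOf α))
    (ih : ∀ χ' ∈ Irr Gb, ∀ z' x' : Gb, Ucl p e m M (⊤ : Subgroup Gb) χ' z' x' → ∀ R' : Subgroup Gb,
      IsOp p (⊤ : Subgroup Gb) R' → z' ^ p ^ (e - 1) ∉ R' → ∀ αb : MulAut Gb, Stb M χ' αb → ¬ p ∣ orderOf αb →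
      ¬ p ^ (v + 1) ∣ Pool.Agent.MAPW.J2 (orderOf αb) →
      ∃ k : ℤ, Om p M χ' R' αb = (p : ℂ) ^ c * (Nat.card Gb : ℂ) * k) :
    ∃ k : ℤ, Om p M χ R α = (p : ℂ) ^ c * (Nat.card G : ℂ) * k := by
  have : Fact p.Prime := ⟨hM.pr⟩
  have : Finite (MulAut G) := Finite.of_injective (fun f : MulAut G => (f : G → G)) DFunLike.coe_injective
  have : Finite (MulAut Gb) := Finite.of_injective (fun f : MulAut Gb => (f : Gb → Gb)) DFunLike.coe_injective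
  obtain ⟨-, hcG, -, -, -, -, -, -⟩ := hKG1 p G Gb R₁ π hQ
  obtain ⟨-, -, hop⟩ := hNKC p G Gb R₁ π hQ
  obtain ⟨hRR, hop'⟩ := hop R hR₁ hR
  have hnz : nz (R.map π) = ⊤ := top_le_iff.1 hop'.1.2.2
  have hz₁ : z ^ p ^ (e - 1) ∉ R₁ := fun h => hz (hR₁ h)
  have hz' : (π z) ^ p ^ (e - 1) ∉ R.map π := by
    intro h
    rw [← map_pow] at h
    have h1 : z ^ p ^ (e - 1) ∈ (R.map π).comap π := h
    rw [hRR] at h1
    exact hz h1
  obtain ⟨hex, hall⟩ := hEQA p G Gb R₁ π hQ α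
  obtain ⟨αb, hαb⟩ := hex hα
  have hαbn : orderOf αb ∣ orderOf α := orderOf_dvd_of_pow_eq_one ((hall αb hαb).1 _ (pow_orderOf_eq_one α))
  obtain ⟨hpb, hJb⟩ := hEJ5 p (orderOf α) (orderOf αb) (v + 1) hM.pr (orderOf_pos α) (orderOf_pos αb) hp
    (fun l _ hl => hl.trans hαbn) hJ
  have hX : ∀ χ' ∈ {χ' : Gb → ℂ | χ' ∈ Irr Gb ∧ Induces M (fun g => χ' (π g)) χ},
      ∀ χ'' ∈ Irr Gb, Induces M χ'' χ' →
      χ'' ∈ {χ' : Gb → ℂ | χ' ∈ Irr Gb ∧ Induces M (fun g => χ' (π g)) χ} :=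
    fun χ' h1 χ'' h2 h3 => ⟨h2, (hIM G M _ _ _).2.2.1 ((hKBL p M hM G Gb R₁ π hQ).1 χ'' χ' h3) h1.2⟩
  obtain ⟨k, hk⟩ := hXUN p M hM Gb (R.map π)
    {χ' : Gb → ℂ | χ' ∈ Irr Gb ∧ Induces M (fun g => χ' (π g)) χ} (fun _ h => h.1) hX αb
    ((p : ℤ) ^ c * Nat.card Gb) (fun χ' h1 hst => by
      obtain ⟨k, hk⟩ := ih χ' h1.1 (π z) (π x)
        (hNQK p e m M hM (by omega) G Gb R₁ π hQ χ hχ z x hU hz₁ χ' h1.1 h1.2) (R.map π) hop' hz' αb hst hpb hJb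
      refine ⟨k, ?_⟩
      rw [hk]
      push_cast
      ring)
  have h1 := hXOQ p M hM G Gb R₁ π hQ (R.map π) hnz χ α αb hαb
  rw [hRR, hk] at h1
  refine ⟨k, ?_⟩
  rw [h1, hcG]
  push_cast
  ring

theorem XDV_ind (hXDB : XDB_stmt) (hXOQ : XOQ_stmt) (hXUN : XUN_stmt) (hNQK : NQK_stmt) (hNKC : NKC_stmt) (hKBL : KBL_stmt)
    (hKG1 : KG1_stmt) (hEQA : EQA_stmt) (hBAA : BAA_stmt) (hEJ5 : EJ5_stmt) (hIM : IM_stmt) (p e m : ℕ)
    (M : Ideal (integralClosure ℤ ℂ)) (hM : Setup p M) (he : m < e) (c v : ℕ) (hcv : c + v = e - m / 2) (n : ℕ) :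
    ∀ (G : Type) [Group G] [Finite G], Nat.card G = n →
    ∀ χ ∈ Irr G, ∀ z x : G, Ucl p e m M (⊤ : Subgroup G) χ z x → ∀ R : Subgroup G,
      IsOp p (⊤ : Subgroup G) R → z ^ p ^ (e - 1) ∉ R → ∀ α : MulAut G, Stb M χ α → ¬ p ∣ orderOf α →
      ¬ p ^ (v + 1) ∣ Pool.Agent.MAPW.J2 (orderOf α) →
      ∃ k : ℤ, Om p M χ R α = (p : ℂ) ^ c * (Nat.card G : ℂ) * k := by
  induction n using Nat.strong_induction_on with
  | _ n ih =>
    intro G _ _ hcard χ hχ z x hU R hR hz α hst hp hJ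
    have : Fact p.Prime := ⟨hM.pr⟩
    by_cases hbot : R = ⊥
    · subst hbot
      exact hXDB p e m M hM he c v hcv G hR χ hχ z x hU α hst hp hJ
    · have hn : R.Normal := by
        constructor
        intro r hr g
        have h1 : g ∈ Subgroup.normalizer (R : Set G) := hR.1.2.2 (Subgroup.mem_top g)
        exact (Subgroup.mem_normalizer_iff.1 h1 r).1 hr
      obtain ⟨hn₁, hne, hpg, hcom⟩ := XDV_center p R hR.1.2.1 hn hbot
      have hQ : Qn p (R ⊓ cz R) (QuotientGroup.mk' (R ⊓ cz R)) :=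
        { pg := hpg
          com := hcom
          sur := QuotientGroup.mk'_surjective (R ⊓ cz R)
          ker := fun g => by
            rw [QuotientGroup.mk'_apply, QuotientGroup.eq_one_iff] }
      have hlt : Nat.card (G ⧸ (R ⊓ cz R)) < n := by
        have h1 := (hKG1 p G (G ⧸ (R ⊓ cz R)) (R ⊓ cz R) (QuotientGroup.mk' (R ⊓ cz R)) hQ).2.1
        have h2 : 1 < Nat.card (R ⊓ cz R : Subgroup G) := (Subgroup.one_lt_card_iff_ne_bot _).2 hne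
        have h3 : 0 < Nat.card (G ⧸ (R ⊓ cz R)) := Nat.card_pos
        rw [← hcard, h1]
        nlinarith
      have hα : am α (R ⊓ cz R) = R ⊓ cz R := by
        have h1 := (hBAA G M p α R (cz R) ⊤ χ χ χ).1
        have h2 : am α R = R := h1.2.2.2.2.2.2.2.2 hR
        rw [h1.2.2.2.1, ← h1.1, h2]
      exact XDV_gen hXOQ hXUN hNQK hNKC hKBL hKG1 hEQA hEJ5 hIM p e m M hM he c v G (G ⧸ (R ⊓ cz R)) χ hχ z x
        hU R hR hz (R ⊓ cz R) inf_le_left (QuotientGroup.mk' (R ⊓ cz R)) hQ α hα hp hJ (ih _ hlt (G ⧸ (R ⊓ cz R)) rfl)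

theorem XDV (hXDB : XDB_stmt) (hXOQ : XOQ_stmt) (hXUN : XUN_stmt) (hNQK : NQK_stmt) (hNKC : NKC_stmt) (hKBL : KBL_stmt)
    (hKG1 : KG1_stmt) (hEQA : EQA_stmt) (hBAA : BAA_stmt) (hEJ5 : EJ5_stmt) (hIM : IM_stmt) : XDV_stmt := by
  intro p e m M hM he c v hcv G _ _ χ hχ z x hU R hR hz α hst hp hJ
  exact XDV_ind hXDB hXOQ hXUN hNQK hNKC hKBL hKG1 hEQA hBAA hEJ5 hIM p e m M hM he c v hcv (Nat.card G) G rfl χ hχ
    z x hU R hR hz α hst hp hJ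

end Pool.Agent.NAB
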