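import Pool.Agent.helper97.NA.SpecE

/-!
# MP_baa4d7_al, theorem NA, block E, row XDZ: the sum of Dade over all `d` and all `U` containing `a` is zero
-/

set_option autoImplicit false

namespace Pool.Agent.NAB

open Pool.Agent.helper58.DC Pool.Agent.DI Pool.Agent.GR Pool.Agent.OB Pool.Agent.DR Pool.Agent.FI Pool.Agent.FI3 Pool.Agent.FI4 Pool.Agent.FI4I Pool.Agent.FI4E Pool.Agent.LE Pool.Agent.L5

/-- the power of the action which is inner -/
theorem XDZ_pow {G E A : Type} [Group G] [Group E] [Group A] (X : Extension G E A) (e : E) :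
    ∃ y : G, (X.act e) ^ orderOf (X.proj e) = MulAut.conj y := by
  have h1 : X.proj (e ^ orderOf (X.proj e)) = 1 := by
    rw [map_pow, pow_orderOf_eq_one]
  obtain ⟨y, hy⟩ := (X.exact _).1 h1
  refine ⟨y, ?_⟩
  rw [← map_pow, ← hy]
  ext g
  apply X.inc_injective
  rw [X.act_spec, MulAut.conj_apply, map_mul, map_mul, map_inv]

theorem XDZ_cj {G : Type} [Group G] (k : G) (Q : Subgroup G) : cjS k⁻¹ (cjS k Q) = Q := by
  ext x
  rw [mem_cjS, mem_cjS]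
  have h : k⁻¹ * (k⁻¹⁻¹ * x * k⁻¹) * k = x := by group
  rw [h]

theorem XDZ (hOMX : OMX_stmt) (hOMR : FI4E.OMR_stmt) (hXTN : XTN_stmt) (hXMN : XMN_stmt) (hXUA : XUA_stmt) (hNUB : NUB_stmt)
    (hNUE : NUE_stmt) (hNEG : NEG_stmt) (hBAA : BAA_stmt) (hOUP5 : OUP5_stmt) (hTPR : FI.TPR_stmt) : XDZ_stmt := by
  intro p e m M hS c v hcv hbz G E A _ _ _ _ _ X hOp χ hχ z x hU a hpa hJ
  obtain ⟨e₀, rfl⟩ := X.proj_surjective a
  have h1 := hOMX p M hS G E A X hOp χ hχ e₀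
  have hG : (Nat.card G : ℂ) ≠ 0 := Nat.cast_ne_zero.2 Nat.card_pos.ne'
  have : Finite A := Finite.of_surjective X.proj X.proj_surjective
  have hn0 : 0 < orderOf (X.proj e₀) := orderOf_pos _
  have hbz1 : 1 ≤ bz p := by
    unfold bz
    split <;> omega
  have hme : m < e := by omega
  have hpr : p.Prime := hS.pr
  have hneg := hNEG p e hpr G z
  have hE : ¬ Eg p e z ≤ ⊥ := by
    rw [le_bot_iff]
    exact (hneg.2.2.2.2.2.1.2 (by omega) hU.od).1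
  obtain ⟨t1, t2, -⟩ := hTPR p M hS G
  have h0 : Om p M χ ⊥ (X.act e₀) = 0 := by
    by_cases hst : Stb M χ (X.act e₀)
    · obtain ⟨u1, u2, -, -⟩ := hXUA p e m M hS G (X.act e₀)
      have hU2 := u2 ⊤ χ z x hU
      have hBA := hBAA G M p (X.act e₀) ⊥ ⊥ ⊤ χ χ χ
      rw [hBA.1.2.2.2.2.2.1] at hU2
      have hU3 : Ucl p e m M ⊤ χ (X.act e₀ z) (X.act e₀ x) :=
        (hNUB p e m M hS G ⊤ (funMap (X.act e₀) χ) _ _ hU2).1 χ ((t2 _ _).1 hst)
      obtain ⟨k, -, hk⟩ := hNUE p e m M hS hme G ⊤ χ (by rw [t1]; exact hχ) z x _ _ hU hU3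
      rw [u1] at hk
      have hβE : am (al (X.act e₀) k⁻¹) (Eg p e z) = Eg p e z := by
        rw [am_al, hk, XDZ_cj]
      have hβS : Stb M χ (al (X.act e₀) k⁻¹) := (hBA.2.2.2.2.2.2.2.2.2.2 k⁻¹ hχ).2.2 hst
      have hin : ∃ y : G, (al (X.act e₀) k⁻¹) ^ orderOf (X.proj e₀) = MulAut.conj y :=
        (hOUP5 G (X.act e₀) (orderOf (X.proj e₀))).1 (XDZ_pow X e₀) k⁻¹
      rw [← (hOMR p M hS G χ ⊥ (X.act e₀)).1 k⁻¹]
      rw [hXTN p e m (orderOf (X.proj e₀)) M hS hme G χ hχ z x hU ⊥ hOp hE _ hβE hin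
        (fun N _ => hXMN p e m M hS c v (orderOf (X.proj e₀)) hcv hbz hn0 hpa hJ N),
        hXMN p e m M hS c v (orderOf (X.proj e₀)) hcv hbz hn0 hpa hJ G χ hχ z x hU _ hβE hβS hin,
        sub_self, mul_zero]
    · exact (hOMR p M hS G χ ⊥ (X.act e₀)).2 hχ hst
  rw [h0] at h1
  have h2 := (mul_eq_zero.1 h1).resolve_left hG
  exact_mod_cast h2

end Pool.Agent.NAB
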